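import Pool.Agent.V5helper50.RC.Stm
import Pool.Agent.TH854.KS.K6

/-!
# Project RC, job LOWD: the order of magnitude fails in the dimensions `d ≤ k + 1`
-/

set_option autoImplicit false

open Finset MeasureTheory ProbabilityTheory

namespace Pool.Agent.V5helper83.RC

open Pool.Agent.V5helper50.RS (Tk)
open Pool.Agent.V5helper50.RC

/-- the densities modulo `W` are unbounded in the dimensions `k`, `k + 1` -/
theorem unb {k d : ℕ} (hk : 3 ≤ k) (hd : d = k ∨ d = k + 1) (K : ℝ) :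
    ∃ W : ℕ, 0 < W ∧ K * (W : ℝ) ^ (d - 1) ≤ (TH854.KS.M W k d : ℝ) := by
  classical
  obtain ⟨N0, hN0⟩ := exists_nat_ge ((2 * ((k : ℝ) ^ (k + 1) + 1)) ^ 2)
  obtain ⟨P, hP, hB⟩ := TH854.KS.exists_primes N0 K
  set W := ∏ p ∈ P, p ^ k with hW
  have hWpos : 0 < W := by
    rw [hW]
    exact prod_pos (fun p hp => pow_pos (hP p hp).1.pos _)
  refine ⟨W, hWpos, ?_⟩
  have h2 : (TH854.KS.M W k d : ℝ) = ∏ p ∈ P, (TH854.KS.M (p ^ k) k d : ℝ) := by
    rw [hW, TH854.KS.M_prod P (fun p hp => (hP p hp).1)]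
    push_cast
    rfl
  have h3 : (∏ p ∈ P, (1 + 1 / (2 * (p : ℝ)))) * (W : ℝ) ^ (d - 1) ≤ (TH854.KS.M W k d : ℝ) := by
    rw [h2, hW]
    push_cast
    rw [← prod_pow, ← prod_mul_distrib]
    apply prod_le_prod
    · intro p _; positivity
    · intro p hp
      have : Fact p.Prime := ⟨(hP p hp).1⟩
      have h4 := TH854.KS.density (p := p) hk hd (hN0.trans (by exact_mod_cast (hP p hp).2))
      rw [pow_mul] at h4
      exact h4
  have hW1 : (0 : ℝ) < (W : ℝ) ^ (d - 1) := by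
    have : (0 : ℝ) < W := by exact_mod_cast hWpos
    positivity
  exact (mul_le_mul_of_nonneg_right hB hW1.le).trans h3

theorem le_A {k : ℕ} {q : ℕ → ℕ} (hk : 1 ≤ k) (t : ℕ → ℕ) (x : ℕ) : x ≤ A k q t x :=
  (Nat.le_self_pow (by omega) x).trans (Nat.le_add_right _ _)

theorem N_finite {k : ℕ} {q : ℕ → ℕ} (hk : 1 ≤ k) (t : ℕ → ℕ) (d u : ℕ) :
    {z : Fin d → ℤ | ∑ i, A k q t (z i).natAbs = u}.Finite := by
  apply Set.Finite.subset (Set.Finite.pi' (fun _ : Fin d => Set.finite_Icc (-(u : ℤ)) u))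
  intro z hz i
  have hz' : ∑ i, A k q t (z i).natAbs = u := hz
  have h1 : A k q t (z i).natAbs ≤ u := by
    rw [← hz']
    exact single_le_sum (f := fun i => A k q t (z i).natAbs) (fun _ _ => Nat.zero_le _) (mem_univ i)
  have h2 := (le_A (q := q) hk t (z i).natAbs).trans h1
  rw [Set.mem_Icc]
  omega

theorem A_zero {k : ℕ} {q : ℕ → ℕ} (hk : 2 ≤ k) (t : ℕ → ℕ) (ht : ∀ x, t x < Tk k x) :
    A k q t 0 = 0 := by
  have h1 : t 0 < Tk k 0 := ht 0
  unfold Tk at h1
  rw [zero_pow (by omega : k - 1 ≠ 0)] at h1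
  have h2 : t 0 = 0 := by
    simp at h1
    exact h1
  unfold A
  rw [zero_pow (by omega : k ≠ 0), h2]
  simp

theorem one_le_N {k : ℕ} {q : ℕ → ℕ} (hk : 2 ≤ k) (t : ℕ → ℕ) (ht : ∀ x, t x < Tk k x) {d : ℕ}
    (hd : 1 ≤ d) (x : ℕ) : 1 ≤ N k q t d (A k q t x) := by
  have h0 := A_zero (q := q) hk t ht
  have hmem : (fun i : Fin d => if (i : ℕ) = 0 then (x : ℤ) else 0) ∈
      {z : Fin d → ℤ | ∑ i, A k q t (z i).natAbs = A k q t x} := by
    show ∑ i : Fin d, A k q t (if (i : ℕ) = 0 then (x : ℤ) else 0).natAbs = A k q t x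
    rw [Finset.sum_eq_single (⟨0, by omega⟩ : Fin d)]
    · simp
    · intro i _ hi
      have : (i : ℕ) ≠ 0 := fun h => hi (Fin.ext h)
      rw [if_neg this]
      simpa using h0
    · intro h
      exact absurd (mem_univ _) h
  unfold N
  exact (Set.ncard_pos (N_finite (by omega) t d _)).mpr ⟨_, hmem⟩

theorem two_mul_lt (l : ℕ) (hl : 3 ≤ l) : 2 * l + 1 ≤ 2 ^ l := by
  induction l, hl using Nat.le_induction with
  | base => norm_num
  | succ l hl ih => rw [pow_succ]; omega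

theorem sq_le_two_pow (l : ℕ) : l ^ 2 ≤ 2 ^ l + 16 := by
  induction l with
  | zero => norm_num
  | succ l ih =>
    rcases Nat.lt_or_ge l 3 with h | h
    · interval_cases l <;> norm_num
    · have h1 := two_mul_lt l h
      rw [pow_succ 2 l]
      nlinarith

/-- the slowly growing modulus is small -/
theorem slow_small (K k X : ℕ) (hX : 8 * k * K + 17 + 16 * k ^ 2 ≤ X) :
    (K + Nat.log 2 (X + 1)) * (4 * k) ≤ X := by
  set l := Nat.log 2 (X + 1) with hl
  have h1 : 2 ^ l ≤ X + 1 := Nat.pow_log_le_self 2 (by omega)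
  have h2 := sq_le_two_pow l
  zify at *
  nlinarith [sq_nonneg ((l : ℤ) - 4 * k)]

/-- the averaging argument in the dimensions `k`, `k + 1` -/
theorem avg {k K d e W x₀ : ℕ} {q : ℕ → ℕ} (hk : 3 ≤ k) (he : e ≤ 1) (hde : d = k + e) (hq : Chain K q)
    (hW : 0 < W) (hx₀ : ∀ x ≥ x₀, W ∣ q x) (t : ℕ → ℕ) (ht : ∀ x, t x < Tk k x) (u₀ : ℕ) (C : ℝ)
    (hC : 0 ≤ C) (H : ∀ u ≥ u₀, (N k q t d u : ℝ) ≤ C * (u : ℝ) ^ ((d : ℝ) / k - 1)) :
    (TH854.KS.M W k d : ℝ) < (3 + 4 * d ^ 2 * C + 2 * d * C) * (W : ℝ) ^ (d - 1) := by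
  classical
  have hd3 : 3 ≤ d := by omega
  set L := 8 * k * K + 17 + 16 * k ^ 2 + u₀ + d * x₀ with hL
  have hLu : u₀ ≤ L := by omega
  have hLx : d * x₀ ≤ L := by omega
  have hL1 : 1 ≤ L := by omega
  have hL2 : 8 * k * K + 17 + 16 * k ^ 2 ≤ L := by omega
  set X := W * L with hX
  have hLX : L ≤ X := by rw [hX]; exact Nat.le_mul_of_pos_left _ hW
  have hX1 : 1 ≤ X := Nat.mul_pos hW hL1
  have hslow := slow_small K k X (hL2.trans hLX)
  have haX : ∀ y, y < X → A k q t y ≤ 2 * X ^ k := by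
    intro y hy
    unfold A
    have h1 : y ^ k ≤ X ^ k := Nat.pow_le_pow_left hy.le k
    have h2 : t y ≤ max 1 (4 * k * X ^ (k - 1)) := by
      refine (ht y).le.trans ?_
      unfold Tk
      gcongr
    have h4k : 1 ≤ 4 * k * X ^ (k - 1) := Nat.mul_pos (by omega) (pow_pos hX1 _)
    rw [max_eq_right h4k] at h2
    have h5 : q y ≤ K + Nat.log 2 (X + 1) := (hq.mono hy.le).trans (hq.slow X)
    have h3 : q y * t y ≤ X ^ k := by
      calc q y * t y ≤ (K + Nat.log 2 (X + 1)) * (4 * k * X ^ (k - 1)) := Nat.mul_le_mul h5 h2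
        _ = (K + Nat.log 2 (X + 1)) * (4 * k) * X ^ (k - 1) := by ring
        _ ≤ X * X ^ (k - 1) := by gcongr
        _ = X ^ (k - 1 + 1) := by rw [pow_succ]; ring
        _ = X ^ k := by congr 1; omega
    omega
  set B0 := (TH854.KS.Box d X).filter (fun y => W ∣ ∑ i, y i ^ k) with hB0
  set B := B0.filter (fun y => ∀ i, x₀ ≤ y i) with hB
  set S := (range (2 * d * X ^ k + 1)).filter (fun n => W ∣ n) with hS
  -- the tuples with a small coordinate
  have hsmall : (B0.filter (fun y => ¬ ∀ i, x₀ ≤ y i)).card ≤ d * (x₀ * X ^ (d - 1)) := by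
    have h1 : B0.filter (fun y => ¬ ∀ i, x₀ ≤ y i) ⊆
        (univ : Finset (Fin d)).biUnion (fun i =>
          Fintype.piFinset (fun j => if j = i then range x₀ else range X)) := by
      intro y hy
      rw [mem_filter, hB0, mem_filter, TH854.KS.mem_Box] at hy
      obtain ⟨⟨h2, _⟩, h3⟩ := hy
      push Not at h3
      obtain ⟨i, hi⟩ := h3
      rw [mem_biUnion]
      refine ⟨i, mem_univ _, ?_⟩
      rw [Fintype.mem_piFinset]
      intro j
      by_cases hj : j = i
      · rw [if_pos hj, mem_range, hj]; exact hi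
      · rw [if_neg hj, mem_range]; exact h2 j
    refine (card_le_card h1).trans (card_biUnion_le.trans ?_)
    have h2 : ∀ i ∈ (univ : Finset (Fin d)),
        (Fintype.piFinset (fun j => if j = i then range x₀ else range X)).card ≤
          x₀ * X ^ (d - 1) := by
      intro i _
      rw [Fintype.card_piFinset]
      have h3 : ∀ j : Fin d, (if j = i then range x₀ else range X).card =
          if j = i then x₀ else X := by
        intro j; split_ifs <;> simp
      rw [prod_congr rfl (fun j _ => h3 j), prod_ite, prod_const, prod_const]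
      have h4 : (univ.filter (fun j : Fin d => j = i)).card = 1 := by
        rw [filter_eq' univ i, if_pos (mem_univ _), card_singleton]
      have h5 : (univ.filter (fun j : Fin d => ¬ j = i)).card = d - 1 := by
        have h6 := card_filter_add_card_filter_not (s := (univ : Finset (Fin d))) (fun j => j = i)
        rw [card_univ, Fintype.card_fin, h4] at h6
        omega
      rw [h4, h5, pow_one]
    refine (sum_le_card_nsmul _ _ _ h2).trans ?_
    rw [card_univ, Fintype.card_fin, smul_eq_mul]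
  have hmaps : ∀ y ∈ B, ∑ i, A k q t (y i) ∈ S := by
    intro y hy
    rw [hB, mem_filter, hB0, mem_filter, TH854.KS.mem_Box] at hy
    rw [hS, mem_filter, mem_range]
    constructor
    · have : ∑ i, A k q t (y i) ≤ ∑ _i : Fin d, 2 * X ^ k := sum_le_sum fun i _ => haX _ (hy.1.1 i)
      rw [sum_const, card_univ, Fintype.card_fin, smul_eq_mul] at this
      have e : d * (2 * X ^ k) = 2 * d * X ^ k := by ring
      omega
    · unfold A
      rw [sum_add_distrib]
      refine Dvd.dvd.add hy.1.2 (dvd_sum fun i _ => ?_)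
      exact (hx₀ _ (hy.2 i)).mul_right _
  have h0 : L ^ d * TH854.KS.M W k d ≤ B0.card := TH854.KS.box_ge hW
  have h00 : B0.card = B.card + (B0.filter (fun y => ¬ ∀ i, x₀ ≤ y i)).card :=
    (card_filter_add_card_filter_not (s := B0) (fun y => ∀ i, x₀ ≤ y i)).symm
  have h1 : L ^ d * TH854.KS.M W k d ≤ B.card + d * (x₀ * X ^ (d - 1)) := by omega
  rw [card_eq_sum_card_fiberwise hmaps, ← sum_filter_add_sum_filter_not S (fun n => n < u₀)] at h1
  have h2 : ∑ n ∈ S.filter (fun n => n < u₀), (B.filter (fun y => ∑ i, A k q t (y i) = n)).card ≤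
      u₀ ^ d := by
    have e : u₀ ^ d = (TH854.KS.Box d u₀).card := by
      simp [TH854.KS.Box]
    rw [e, ← card_biUnion]
    · apply card_le_card
      intro y hy
      rw [mem_biUnion] at hy
      obtain ⟨n, hn, hy⟩ := hy
      rw [mem_filter] at hn hy
      rw [TH854.KS.mem_Box]
      intro i
      have h3 : A k q t (y i) ≤ n := by
        rw [← hy.2]
        exact single_le_sum (f := fun i => A k q t (y i)) (fun _ _ => Nat.zero_le _) (mem_univ i)
      exact lt_of_le_of_lt ((le_A (by omega) t (y i)).trans h3) hn.2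
    · intro n _ n' _ hnn
      rw [Function.onFun, disjoint_left]
      intro y hy hy'
      rw [mem_filter] at hy hy'
      exact hnn (hy.2.symm.trans hy'.2)
  have hk0 : (0 : ℝ) < k := by exact_mod_cast (by omega : 0 < k)
  have hexp : (d : ℝ) / k - 1 = (e : ℝ) / k := by
    rw [hde]; push_cast; field_simp; ring
  have h3 : ((∑ n ∈ S.filter (fun n => ¬ n < u₀),
      (B.filter (fun y => ∑ i, A k q t (y i) = n)).card : ℕ) : ℝ) ≤
      (2 * d * L ^ k * (W : ℝ) ^ (k - 1) + 1) * (C * (2 * d * (X : ℝ) ^ e)) := by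
    push_cast
    have hC2 : 0 ≤ C * (2 * d * (X : ℝ) ^ e) := by positivity
    have h4 : ∀ n ∈ S.filter (fun n => ¬ n < u₀),
        ((B.filter (fun y => ∑ i, A k q t (y i) = n)).card : ℝ) ≤ C * (2 * d * (X : ℝ) ^ e) := by
      intro n hn
      rw [mem_filter, hS, mem_filter, mem_range] at hn
      have h5 : (B.filter (fun y => ∑ i, A k q t (y i) = n)).card ≤ N k q t d n := by
        unfold N
        rw [← Set.ncard_coe_finset]
        refine Set.ncard_le_ncard_of_injOn (fun y i => (y i : ℤ)) ?_ ?_ (N_finite (by omega) t d n)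
        · intro y hy
          rw [mem_coe, mem_filter] at hy
          show ∑ i, A k q t ((y i : ℤ)).natAbs = n
          simp only [Int.natAbs_natCast]
          exact hy.2
        · intro y _ y' _ h
          funext i
          have h6 : ((y i : ℕ) : ℤ) = ((y' i : ℕ) : ℤ) := congrFun h i
          exact_mod_cast h6
      have h6 : ((B.filter (fun y => ∑ i, A k q t (y i) = n)).card : ℝ) ≤ (N k q t d n : ℝ) := by
        exact_mod_cast h5
      refine h6.trans ((H n (by omega)).trans ?_)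
      refine mul_le_mul_of_nonneg_left ?_ hC
      rw [hexp]
      have hn2 : (n : ℝ) ≤ 2 * d * (X : ℝ) ^ k := by exact_mod_cast (by omega : n ≤ 2 * d * X ^ k)
      have h7 : (n : ℝ) ^ ((e : ℝ) / k) ≤ (2 * d * (X : ℝ) ^ k) ^ ((e : ℝ) / k) :=
        Real.rpow_le_rpow (by positivity) hn2 (by positivity)
      refine h7.trans ?_
      rw [Real.mul_rpow (by positivity) (by positivity)]
      have h8 : ((X : ℝ) ^ k) ^ ((e : ℝ) / k) = (X : ℝ) ^ e := by
        rw [← Real.rpow_natCast, ← Real.rpow_mul (by positivity), ← Real.rpow_natCast]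
        congr 1
        field_simp
      rw [h8]
      have h9 : ((2 : ℝ) * d) ^ ((e : ℝ) / k) ≤ 2 * d := by
        have h10 : (1 : ℝ) ≤ 2 * d := by
          have : (3 : ℝ) ≤ d := by exact_mod_cast hd3
          linarith
        have h11 : (e : ℝ) / k ≤ 1 := by
          rw [div_le_one hk0]
          exact_mod_cast (by omega : e ≤ k)
        calc ((2 : ℝ) * d) ^ ((e : ℝ) / k) ≤ (2 * d) ^ (1 : ℝ) :=
              Real.rpow_le_rpow_of_exponent_le h10 h11
          _ = 2 * d := Real.rpow_one _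
      gcongr
    refine (sum_le_sum h4).trans ?_
    rw [sum_const, nsmul_eq_mul]
    refine mul_le_mul_of_nonneg_right ?_ hC2
    have h6 : S.card ≤ 2 * d * X ^ k / W + 1 := by
      rw [hS]
      have h7 : ((range (2 * d * X ^ k + 1)).filter (fun n => W ∣ n)) ⊆
          (range (2 * d * X ^ k / W + 1)).image (fun m => W * m) := by
        intro n hn
        rw [mem_filter, mem_range] at hn
        obtain ⟨h8, m, rfl⟩ := hn
        rw [mem_image]
        refine ⟨m, ?_, rfl⟩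
        rw [mem_range, Nat.lt_succ_iff, Nat.le_div_iff_mul_le hW]
        rw [mul_comm]
        omega
      exact (card_le_card h7).trans (card_image_le.trans (by rw [card_range]))
    have h7 : 2 * d * X ^ k / W = 2 * d * L ^ k * W ^ (k - 1) := by
      apply Nat.div_eq_of_eq_mul_left hW
      rw [hX, mul_pow]
      have : W ^ k = W ^ (k - 1) * W := by
        rw [← pow_succ]; congr 1; omega
      rw [this]; ring
    have h8 : (S.filter (fun n => ¬ n < u₀)).card ≤ 2 * d * L ^ k * W ^ (k - 1) + 1 := by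
      rw [← h7]
      exact (card_filter_le _ _).trans h6
    exact_mod_cast h8
  by_contra hcon
  push Not at hcon
  have hLk : (1 : ℝ) ≤ (L : ℝ) ^ d := one_le_pow₀ (by exact_mod_cast hL1)
  have hWk : (1 : ℝ) ≤ (W : ℝ) ^ (d - 1) := one_le_pow₀ (by exact_mod_cast hW)
  set Z : ℝ := (L : ℝ) ^ d * (W : ℝ) ^ (d - 1) with hZ
  have hZ1 : 1 ≤ Z := by rw [hZ]; nlinarith
  have hL1R : (1 : ℝ) ≤ L := by exact_mod_cast hL1
  have hW1R : (1 : ℝ) ≤ W := by exact_mod_cast hW
  have h9 : (L : ℝ) ^ d * (TH854.KS.M W k d : ℝ) ≤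
      (u₀ : ℝ) ^ d + (2 * d * L ^ k * (W : ℝ) ^ (k - 1) + 1) * (C * (2 * d * (X : ℝ) ^ e)) +
        d * (x₀ * (X : ℝ) ^ (d - 1)) := by
    have h10 : ((L ^ d * TH854.KS.M W k d : ℕ) : ℝ) ≤ ((∑ n ∈ S.filter (fun n => n < u₀),
        (B.filter (fun y => ∑ i, A k q t (y i) = n)).card + ∑ n ∈ S.filter (fun n => ¬ n < u₀),
      (B.filter (fun y => ∑ i, A k q t (y i) = n)).card + d * (x₀ * X ^ (d - 1)) : ℕ) : ℝ) := by
      exact_mod_cast h1
    have h11 : ((∑ n ∈ S.filter (fun n => n < u₀),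
      (B.filter (fun y => ∑ i, A k q t (y i) = n)).card : ℕ) : ℝ) ≤ (u₀ : ℝ) ^ d := by
      exact_mod_cast h2
    rw [Nat.cast_add, Nat.cast_add] at h10
    rw [Nat.cast_mul, Nat.cast_pow] at h10
    have h12 : ((d * (x₀ * X ^ (d - 1)) : ℕ) : ℝ) = d * (x₀ * (X : ℝ) ^ (d - 1)) := by push_cast; ring
    rw [h12] at h10
    linarith
  -- the three terms
  have e1 : (u₀ : ℝ) ^ d ≤ Z := by
    have h12 : (u₀ : ℝ) ^ d ≤ (L : ℝ) ^ d := by
      apply pow_le_pow_left₀ (by positivity)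
      exact_mod_cast hLu
    have : (L : ℝ) ^ d ≤ Z := by rw [hZ]; nlinarith
    linarith
  have e2 : (d : ℝ) * (x₀ * (X : ℝ) ^ (d - 1)) ≤ Z := by
    have h13 : (X : ℝ) ^ (d - 1) = (W : ℝ) ^ (d - 1) * (L : ℝ) ^ (d - 1) := by
      rw [hX]; push_cast; rw [mul_pow]
    have h14 : (L : ℝ) ^ d = (L : ℝ) ^ (d - 1) * L := by
      rw [← pow_succ]; congr 1; omega
    have h15 : (d : ℝ) * x₀ ≤ L := by exact_mod_cast hLx
    rw [h13, hZ, h14]
    have h16 : (0 : ℝ) ≤ (W : ℝ) ^ (d - 1) * (L : ℝ) ^ (d - 1) := by positivity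
    calc (d : ℝ) * (x₀ * ((W : ℝ) ^ (d - 1) * (L : ℝ) ^ (d - 1)))
        = (d * x₀) * ((W : ℝ) ^ (d - 1) * (L : ℝ) ^ (d - 1)) := by ring
      _ ≤ L * ((W : ℝ) ^ (d - 1) * (L : ℝ) ^ (d - 1)) := mul_le_mul_of_nonneg_right h15 h16
      _ = _ := by ring
  have e3 : (L : ℝ) ^ k * (W : ℝ) ^ (k - 1) * (X : ℝ) ^ e = Z := by
    rw [hZ, hX]
    push_cast
    rw [mul_pow, hde, pow_add, show k + e - 1 = (k - 1) + e by omega, pow_add]
    ring
  have e4 : (X : ℝ) ^ e ≤ Z := by
    rw [← e3]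
    have h17 : (1 : ℝ) ≤ (L : ℝ) ^ k * (W : ℝ) ^ (k - 1) :=
      one_le_mul_of_one_le_of_one_le (one_le_pow₀ hL1R) (one_le_pow₀ hW1R)
    have h18 : (0 : ℝ) ≤ (X : ℝ) ^ e := by positivity
    nlinarith
  have e5 : (2 * d * L ^ k * (W : ℝ) ^ (k - 1) + 1) * (C * (2 * d * (X : ℝ) ^ e)) ≤
      (4 * d ^ 2 * C + 2 * d * C) * Z := by
    have h19 : (2 * d * L ^ k * (W : ℝ) ^ (k - 1) + 1) * (C * (2 * d * (X : ℝ) ^ e)) =
        4 * d ^ 2 * C * ((L : ℝ) ^ k * (W : ℝ) ^ (k - 1) * (X : ℝ) ^ e) + 2 * d * C * (X : ℝ) ^ e := by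
      ring
    rw [h19, e3, add_mul]
    have h20 : 0 ≤ 2 * (d : ℝ) * C := by positivity
    have := mul_le_mul_of_nonneg_left e4 h20
    linarith
  have h13 : (3 + 4 * d ^ 2 * C + 2 * d * C) * Z ≤ (L : ℝ) ^ d * (TH854.KS.M W k d : ℝ) := by
    rw [hZ]
    calc (3 + 4 * d ^ 2 * C + 2 * d * C) * ((L : ℝ) ^ d * (W : ℝ) ^ (d - 1))
        = (L : ℝ) ^ d * ((3 + 4 * d ^ 2 * C + 2 * d * C) * (W : ℝ) ^ (d - 1)) := by ring
      _ ≤ _ := mul_le_mul_of_nonneg_left hcon (by positivity)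
  nlinarith

theorem t_LOWD : S_LOWD := by
  intro k K q d hk hd1 hd hq hm t ht
  rintro ⟨c, C, hc, u₀, hu⟩
  rcases Nat.lt_or_ge d k with hlt | hge
  · have hk0 : (0 : ℝ) < k := by exact_mod_cast (by omega : 0 < k)
    have hs : 0 < 1 - (d : ℝ) / k := by
      rw [sub_pos, div_lt_one hk0]
      exact_mod_cast hlt
    have hlim : Filter.Tendsto (fun u : ℕ => C * (u : ℝ) ^ (-(1 - (d : ℝ) / k))) Filter.atTop
        (nhds (C * 0)) :=
      ((tendsto_rpow_neg_atTop hs).comp tendsto_natCast_atTop_atTop).const_mul C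
    rw [mul_zero] at hlim
    have hev := hlim.eventually_lt_const (show (0 : ℝ) < 1 by norm_num)
    obtain ⟨u₁, hu₁⟩ := Filter.eventually_atTop.mp hev
    set x := max u₀ u₁ with hx
    set u := A k q t x with hu_def
    have hxu : x ≤ u := le_A (by omega) t x
    have hN : 1 ≤ N k q t d u := one_le_N (by omega) t ht hd1 x
    have h1 := (hu u ((le_max_left _ _).trans hxu) (by omega)).2
    have h2 := hu₁ u ((le_max_right _ _).trans hxu)
    have h3 : (d : ℝ) / k - 1 = -(1 - (d : ℝ) / k) := by ring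
    rw [h3] at h1
    have h4 : (1 : ℝ) ≤ (N k q t d u : ℝ) := by exact_mod_cast hN
    linarith
  · obtain ⟨W, hW, hWM⟩ := unb (d := d) hk (by omega)
      (3 + 4 * d ^ 2 * (max C 0) + 2 * d * (max C 0))
    obtain ⟨x₀, hx₀⟩ := hm W hW
    have h1 := avg (d := d) (e := d - k) hk (by omega) (by omega) hq hW
      (fun x hx => hx₀.trans (hq.dvd hx)) t ht u₀ (max C 0) (le_max_right _ _) (by
        intro u hu'
        by_cases h0 : N k q t d u = 0
        · rw [h0]
          have : (0 : ℝ) ≤ max C 0 := le_max_right _ _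
          simp only [Nat.cast_zero]
          positivity
        · have h2 := (hu u hu' h0).2
          refine h2.trans (mul_le_mul_of_nonneg_right (le_max_left _ _) (by positivity)))
    linarith

end Pool.Agent.V5helper83.RC
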